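import Mathlib
import Pool.Agent.H641.CP.Sq
import Pool.Graph.R_seed8.Helper292.ForceCH

/-!
# `MP_d76130_gt`, Q2: the compact case is independent of ZFC

Let `X` be a compact zero-dimensional space such that `C_p(X, 2)` is normal. Must the square of
`C_p(X, 2)` be normal?

* Under the continuum hypothesis: no. The counterexample is the Cantor set in which `ω₁` points are
  split into three points each, by partitions of their complements into three clopen pieces which
  alternate generically along two sequences of points.
* Under Martin's axiom for `ℵ₁` dense sets: yes, for every compact zero-dimensional `X`; if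
  `C_p(X, 2)` is Lindelöf, then so is its square.

Both hypotheses can be forced.

`C_p(X, 2)` is `{f : X → Bool // Continuous f}` with the subspace topology from the product
`X → Bool`.

The two forcing languages are those of `Pool.Agent.Helper292.ForceCH` and of
`Pool.Agent.Helper669.Forcing`: a sentence is the set of the conditions which force it, `fnot`,
`fand`, `fall` are the primitive connectives, and a name for a subset of a ground model set `S` is
a map sending `s : S` to a set of conditions. `CHHolds P` is the translation of the continuum
hypothesis, `MartinHolds P Om1` is the translation of `MartinFor Om1`, which is equivalent to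
`MartinAxiomAleph1`, Martin's axiom for `ℵ₁` dense sets (`Pool.Agent.W684.FM.Defs`).
-/

set_option autoImplicit false

namespace Pool.Agent.Results.MP_d76130_gt.CompactIndependent

open Cardinal TopologicalSpace

/-- The statement of Q2: for every compact (Hausdorff) space `X` with a base of clopen sets, if
`C_p(X, 2)` is normal then `C_p(X, 2) × C_p(X, 2)` is normal. -/
def StatementQ2 : Prop :=
  ∀ (X : Type) [TopologicalSpace X] [CompactSpace X] [T2Space X],
    IsTopologicalBasis {s : Set X | IsClopen s} →
    NormalSpace {f : X → Bool // Continuous f} →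
    NormalSpace ({f : X → Bool // Continuous f} × {f : X → Bool // Continuous f})

/-- **Q2 is independent of ZFC.** (1) Some notion of forcing forces that `ω₁` is preserved and that
the continuum hypothesis holds. (2) Under the continuum hypothesis there is a compact space `X`
with a base of clopen sets such that `C_p(X, 2)` is Lindelöf and normal, and its square is neither
Lindelöf nor normal; so (3) the statement of Q2 is false. (4) Some notion of forcing forces that
all cardinals are preserved and that Martin's axiom for `ℵ₁` dense sets holds; (5) the forced form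
of this axiom is equivalent to the usual one. (6) Under Martin's axiom for `ℵ₁` dense sets, if `X`
is compact with a base of clopen sets and `C_p(X, 2)` is Lindelöf, then its square is Lindelöf, and
(7) the statement of Q2 is true. -/
theorem result :
    (∃ (P : Type) (_ : Preorder P), Nonempty P ∧ ∀ p : P,
      p ∈ Pool.Agent.Helper292.ForceCH.OmegaOnePreserved P ∧
      p ∈ Pool.Agent.Helper292.ForceCH.CHHolds P) ∧
    ((ℵ₁ : Cardinal.{0}) = Cardinal.continuum →
      ∃ (X : Type) (_ : TopologicalSpace X), CompactSpace X ∧ T2Space X ∧
        IsTopologicalBasis {s : Set X | IsClopen s} ∧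
        LindelofSpace {f : X → Bool // Continuous f} ∧
        NormalSpace {f : X → Bool // Continuous f} ∧
        ¬ LindelofSpace ({f : X → Bool // Continuous f} × {f : X → Bool // Continuous f}) ∧
        ¬ NormalSpace ({f : X → Bool // Continuous f} × {f : X → Bool // Continuous f})) ∧
    ((ℵ₁ : Cardinal.{0}) = Cardinal.continuum → ¬ StatementQ2) ∧
    (∃ (P : Type) (_ : Preorder P), Nonempty P ∧ ∀ p : P,
      p ∈ Pool.Agent.Helper669.Forcing.CardinalsPreserved.{0, 0} P ∧
      p ∈ Pool.Agent.W684.FM.OmegaOnePreserved P ∧
      p ∈ Pool.Agent.W684.FM.MartinHolds P Pool.Agent.W684.FM.Om1) ∧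
    (Pool.Agent.W684.FM.MartinFor Pool.Agent.W684.FM.Om1 ↔ Pool.Agent.W684.MartinAxiomAleph1) ∧
    (Pool.Agent.W684.MartinAxiomAleph1 →
      ∀ (X : Type) [TopologicalSpace X] [CompactSpace X] [T2Space X],
        IsTopologicalBasis {s : Set X | IsClopen s} →
        LindelofSpace {f : X → Bool // Continuous f} →
        LindelofSpace ({f : X → Bool // Continuous f} × {f : X → Bool // Continuous f})) ∧
    (Pool.Agent.W684.MartinAxiomAleph1 → StatementQ2) := by
  have key : (ℵ₁ : Cardinal.{0}) = Cardinal.continuum →
      ∃ (X : Type) (_ : TopologicalSpace X), CompactSpace X ∧ T2Space X ∧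
        IsTopologicalBasis {s : Set X | IsClopen s} ∧
        LindelofSpace {f : X → Bool // Continuous f} ∧
        NormalSpace {f : X → Bool // Continuous f} ∧
        ¬ LindelofSpace ({f : X → Bool // Continuous f} × {f : X → Bool // Continuous f}) ∧
        ¬ NormalSpace ({f : X → Bool // Continuous f} × {f : X → Bool // Continuous f}) := by
    intro h
    obtain ⟨X, i, h1, h2, h3, h4, h5, h6, h7⟩ :=
      Pool.Agent.H641.CP.main_of_fam (Pool.Agent.H641.CP.hasFam_of_CH h)
    exact ⟨X, i, h1, h2, loc_compact_Haus_tot_disc_of_zero_dim, h4, h5, h6, h7⟩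
  refine ⟨?_, key, ?_, ?_, ?_, ?_, ?_⟩
  · obtain ⟨P, i, h1, h2⟩ := Pool.Agent.Helper292.ForceCH.exists_forcing
    exact ⟨P, i, h1, fun p => ⟨(h2 p).1, (h2 p).2.2⟩⟩
  · intro h hQ
    obtain ⟨X, _, _, _, h3, -, h5, -, h7⟩ := key h
    exact h7 (hQ X h3 h5)
  · obtain ⟨P, i, h1, h2⟩ := Pool.Agent.W684.FM.exists_forcing Pool.Agent.W684.FM.Om1
    exact ⟨P, i, h1, h2⟩
  · rw [Pool.Agent.W684.FM.martinAxiomAleph1_iff, Pool.Agent.W684.FM.martinFor_iff,
      Cardinal.mk_ord_toType]
  · intro hMA X _ _ _ hb hL
    have : TotallySeparatedSpace X := totallySeparatedSpace_of_t0_of_basis_clopen hb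
    exact Pool.Agent.H641.CP.sq_lindelof hMA hL
  · intro hMA X _ _ _ hb hN
    have : TotallySeparatedSpace X := totallySeparatedSpace_of_t0_of_basis_clopen hb
    exact Pool.Agent.H641.CP.sq_normal hMA hN

end Pool.Agent.Results.MP_d76130_gt.CompactIndependent
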